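import Pool.Agent.helper82.OG.Spec

set_option autoImplicit false

namespace Pool.Agent.OG

open Finset Pool.Agent.EP

/-- The quadratic form. -/
theorem EXP_q (t β : ℝ) (ht : t ^ 2 = 5) : 4 * (1 + t / 5) * β ^ 2 - (6 * t / 5 + 4) * β + (t + 1) / 2 =
    (β - (1 + t) / 4) * (4 * (1 + t / 5) * (β + (1 + t) / 4) - (6 * t / 5 + 4)) := by
  linear_combination (1 + t) / 20 * ht

theorem EXP_case1a (δ k b a β : ℝ) (hδ : 0 < δ) (hδ' : δ ≤ 1 / 400) (hβ : β ≤ 81 / 100)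
    (hβ' : 3 / 4 ≤ β) (hk : k ≤ 45 / 100) (hk' : 44 / 100 ≤ k) (ha0 : 0 ≤ a) (hb : 1 / 2 - δ ≤ b)
    (ha : a ≤ δ) (h : k / 2 + b + 1 / 2 ≤ β * (k + 1) + (2 * β - 1) * a + 2 * δ) : False := by
  have h1 : (2 * β - 1) * a ≤ 1 * δ := by
    apply mul_le_mul (by linarith) ha ha0 (by norm_num)
  have h2 : β * (k + 1) ≤ 81 / 100 * (k + 1) := by
    apply mul_le_mul_of_nonneg_right hβ (by linarith)
  linarith

theorem EXP_case1b (t ε δ k b a β : ℝ) (ht : t ^ 2 = 5) (ht1 : 2236 / 1000 ≤ t)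
    (ht2 : t ≤ 22361 / 10000) (hε : 0 < ε) (hε' : ε ≤ 1 / 20)
    (hδ : δ = ε / 20) (hβ : β ≤ (1 + t) / 4 - ε)
    (hβ' : 3 / 4 ≤ β) (hk1 : k ≤ t / 5 + δ) (hk2 : t / 5 - δ ≤ k)
    (ha : a ≤ 2 * b - 1 + δ) (hb : k + b ≤ β * (k + 1) + δ)
    (h : k / 2 + b + 1 / 2 ≤ β * (k + 1) + (2 * β - 1) * a + 2 * δ) : False := by
  have hβ2 : β ≤ 81 / 100 := by linarith
  have hδ0 : 0 < δ := by rw [hδ]; linarith
  have h1 : (2 * β - 1) * a ≤ (2 * β - 1) * (2 * b - 1 + δ) :=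
    mul_le_mul_of_nonneg_left ha (by linarith)
  have h2 : (2 * β - 1) * δ ≤ 1 * δ := mul_le_mul_of_nonneg_right (by linarith) hδ0.le
  have h3 : (4 * β - 3) * b ≤ (4 * β - 3) * (β * (k + 1) - k + δ) :=
    mul_le_mul_of_nonneg_left (by linarith) (by linarith)
  have h4 : (4 * β - 3) * δ ≤ 1 * δ := mul_le_mul_of_nonneg_right (by linarith) hδ0.le
  have h5 : 0 ≤ 4 * (1 + k) * β ^ 2 - (6 * k + 4) * β + (5 * k + 1) / 2 + 4 * δ := by nlinarith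
  have h6 : (4 * β ^ 2 - 6 * β + 5 / 2) * (k - t / 5) ≤ δ := by
    have h7 : 0 ≤ 4 * β ^ 2 - 6 * β + 5 / 2 := by nlinarith [sq_nonneg (β - 3 / 4)]
    have h8 : 4 * β ^ 2 - 6 * β + 5 / 2 ≤ 1 := by nlinarith
    calc (4 * β ^ 2 - 6 * β + 5 / 2) * (k - t / 5) ≤ (4 * β ^ 2 - 6 * β + 5 / 2) * δ :=
          mul_le_mul_of_nonneg_left (by linarith) h7
      _ ≤ 1 * δ := mul_le_mul_of_nonneg_right h8 hδ0.le
      _ = δ := one_mul _
  have h7 : 0 ≤ 4 * (1 + t / 5) * β ^ 2 - (6 * t / 5 + 4) * β + (t + 1) / 2 + 5 * δ := by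
    have h8 : 4 * (1 + k) * β ^ 2 - (6 * k + 4) * β + (5 * k + 1) / 2 =
        4 * (1 + t / 5) * β ^ 2 - (6 * t / 5 + 4) * β + (t + 1) / 2 +
          (4 * β ^ 2 - 6 * β + 5 / 2) * (k - t / 5) := by ring
    linarith
  rw [EXP_q t β ht] at h7
  have h8 : 1 ≤ 4 * (1 + t / 5) * (β + (1 + t) / 4) - (6 * t / 5 + 4) := by
    have h9 : (1 + t / 5) * (3 / 4 + 809 / 1000) ≤ (1 + t / 5) * (β + (1 + t) / 4) :=
      mul_le_mul_of_nonneg_left (by linarith) (by linarith)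
    linarith
  have h10 : (β - (1 + t) / 4) * (4 * (1 + t / 5) * (β + (1 + t) / 4) - (6 * t / 5 + 4)) ≤
      -ε * 1 := by
    have h11 : ε * 1 ≤ ((1 + t) / 4 - β) *
        (4 * (1 + t / 5) * (β + (1 + t) / 4) - (6 * t / 5 + 4)) :=
      mul_le_mul (by linarith) h8 (by norm_num) (by linarith)
    linarith
  linarith

theorem EXP_case2 (t ε δ k b a β : ℝ) (ht : t ^ 2 = 5) (ht1 : 2236 / 1000 ≤ t)
    (ht2 : t ≤ 22361 / 10000) (hε : 0 < ε) (hε' : ε ≤ 1 / 20)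
    (hδ : δ = ε / 20) (hβ : β ≤ (1 + t) / 4 - ε)
    (hβ' : 3 / 4 ≤ β) (hk1 : k ≤ t / 5 + δ) (hk2 : t / 5 - δ ≤ k)
    (ha : a ≤ 2 * b - 1 + δ) (hb : k + b ≤ β * (k + 1) + δ) (hak : k < a) : False := by
  have hδ0 : 0 < δ := by rw [hδ]; linarith
  have h1 : β * (k + 1) ≤ ((1 + t) / 4 - ε) * (k + 1) :=
    mul_le_mul_of_nonneg_right hβ (by linarith)
  have h2 : (1 + t) / 4 * (t / 5 + 1) = t / 5 + (1 + t / 5) / 2 := by
    linear_combination 1 / 20 * ht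
  have h3 : ((1 + t) / 4 - 1) * (k - t / 5) ≤ δ := by
    have h4 : ((1 + t) / 4 - 1) * (k - t / 5) = (1 - (1 + t) / 4) * (t / 5 - k) := by ring
    rw [h4]
    calc (1 - (1 + t) / 4) * (t / 5 - k) ≤ (1 - (1 + t) / 4) * δ :=
          mul_le_mul_of_nonneg_left (by linarith) (by linarith)
      _ ≤ 1 * δ := mul_le_mul_of_nonneg_right (by linarith) hδ0.le
      _ = δ := one_mul _
  have h5 : 1 * ε ≤ (k + 1) * ε := mul_le_mul_of_nonneg_right (by linarith) hε.le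
  nlinarith

theorem EXP : EXP_stmt := by
  intro ε hε hε'
  refine ⟨ε / 20, by linarith, ?_⟩
  intro k b a β hβ hβ' hk hb ha0 hab ha hkb h
  obtain ⟨t, ht⟩ : ∃ t : ℝ, t = √5 := ⟨_, rfl⟩
  have ht5 : t ^ 2 = 5 := by rw [ht]; exact Real.sq_sqrt (by norm_num)
  have ht0 : 0 ≤ t := by rw [ht]; exact Real.sqrt_nonneg 5
  have ht1 : 2236 / 1000 ≤ t := by nlinarith
  have ht2 : t ≤ 22361 / 10000 := by nlinarith
  rw [← ht] at hβ hk
  have hs : 1 / t = t / 5 := by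
    have : t ≠ 0 := by positivity
    field_simp
    linarith
  rw [hs, abs_le] at hk
  obtain ⟨hk2, hk1⟩ := hk
  have hk1' : k ≤ t / 5 + ε / 20 := by linarith
  have hk2' : t / 5 - ε / 20 ≤ k := by linarith
  rcases le_or_gt a k with hak | hak
  · rw [max_eq_left (by linarith : (0 : ℝ) ≤ (k - a) / 2)] at h
    have h' : k / 2 + b + 1 / 2 ≤ β * (k + 1) + (2 * β - 1) * a + 2 * (ε / 20) := by linarith
    rcases le_or_gt b (1 / 2) with hb2 | hb2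
    · rw [max_eq_left (by linarith : 2 * b ≤ 1)] at ha
      exact EXP_case1a (ε / 20) k b a β (by linarith) (by linarith) (by linarith) hβ'
        (by linarith) (by linarith) ha0 hb (by linarith) h'
    · rw [max_eq_right (by linarith : 1 ≤ 2 * b)] at ha
      exact EXP_case1b t ε (ε / 20) k b a β ht5 ht1 ht2 hε hε' rfl hβ hβ' hk1' hk2'
        (by linarith) hkb h'
  · rcases le_or_gt b (1 / 2) with hb2 | hb2
    · rw [max_eq_left (by linarith : 2 * b ≤ 1)] at ha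
      linarith
    · rw [max_eq_right (by linarith : 1 ≤ 2 * b)] at ha
      exact EXP_case2 t ε (ε / 20) k b a β ht5 ht1 ht2 hε hε' rfl hβ hβ' hk1' hk2'
        (by linarith) hkb hak

end Pool.Agent.OG
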